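import Mathlib
import Pool.Agent.H8.AnaBP

set_option autoImplicit false

namespace Pool.Agent.Results.MP_f8f5a4_an.EqualCard

open Set Topology TopologicalSpace MeasureTheory Cardinal Pool.Agent.H8.AnaBP

/-- Threads of a sequence of maps. -/
def Th (p : ℕ → ℕ → ℕ) : Set (ℕ → ℕ) := {v | ∀ n a, v (n + 1) = a → v n = p n a}

theorem Th_closed (p : ℕ → ℕ → ℕ) : IsClosed (Th p) := by
  have : Th p = ⋂ n, {v | v n = p n (v (n + 1))} := by ext v; simp [Th]
  rw [this]
  exact isClosed_iInter fun n => isClosed_eq (continuous_apply _)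
    (continuous_of_discreteTopology.comp (continuous_apply _))

theorem Th_le (p p' : ℕ → ℕ → ℕ) (N : ℕ) (h : ∀ n, N ≤ n → p n = p' n) : #(Th p) ≤ #(Th p') := by
  have ex : ∀ N w, ∃ v : ℕ → ℕ, v N = w ∧ ∀ n < N, v n = p' n (v (n + 1)) := by
    intro N
    induction N with
    | zero => exact fun w => ⟨fun _ => w, rfl, by simp⟩
    | succ N ih =>
      intro w
      obtain ⟨v, a, b⟩ := ih (p' N w)
      refine ⟨Function.update v (N + 1) w, by simp, fun n hn => ?_⟩
      rw [Function.update_of_ne (by omega)]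
      rcases (Nat.lt_succ_iff.1 hn).eq_or_lt with rfl | c
      · simpa using a
      · rw [Function.update_of_ne (by omega), b n c]
  have ex2 : ∀ v : Th p, ∃ u : Th p', ∀ n, N ≤ n → u.1 n = v.1 n := by
    intro v
    obtain ⟨w, a, b⟩ := ex N (v.1 N)
    refine ⟨⟨fun n => if N ≤ n then v.1 n else w n, ?_⟩, fun n hn => if_pos hn⟩
    rintro n _ rfl
    beta_reduce
    split_ifs with c d d
    · rw [← h n c]; exact v.2 n _ rfl
    · omega
    · obtain rfl : N = n + 1 := by omega
      rw [b n (by omega), a]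
    · exact b n (by omega)
  choose f hf using ex2
  refine mk_le_of_injective (f := f) fun v u e => Subtype.ext (funext fun n => ?_)
  have : ∀ t n, N ≤ n + t → v.1 n = u.1 n := by
    intro t
    induction t with
    | zero => intro n hn; rw [← hf v n hn, e, hf u n hn]
    | succ t ih => intro n hn; rw [v.2 n _ rfl, u.2 n _ rfl, ih (n + 1) (by omega)]
  exact this N n (by omega)

theorem unc_iff {S : Set (ℕ → ℕ)} (hS : IsClosed S) : ¬ S.Countable ↔ ∃ q : ℕ → ℕ → ℕ,
    (∀ i, q i ∈ S) ∧ ∀ i k, ∃ j, q j ≠ q i ∧ ∀ n < k, q j n = q i n := by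
  constructor
  · intro h
    obtain ⟨P, hP, hne, hPS⟩ := exists_perfect_nonempty_of_isClosed_of_not_countable hS h
    obtain ⟨t, t1, t2, t3⟩ := (IsSeparable.of_separableSpace P).exists_countable_dense_subset
    obtain ⟨q, rfl⟩ := t2.exists_eq_range (closure_nonempty_iff.1 (hne.mono t3))
    refine ⟨q, fun i => hPS (t1 ⟨i, rfl⟩), fun i k => ?_⟩
    have ho := PiNat.isOpen_cylinder (fun _ => ℕ) (q i) k
    obtain ⟨y, ⟨a, b⟩, c⟩ := preperfect_iff_nhds.1 hP.acc _ (t1 ⟨i, rfl⟩) _
      (ho.mem_nhds (PiNat.self_mem_cylinder _ _))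
    obtain ⟨_, ⟨d, e⟩, j, rfl⟩ := mem_closure_iff.1 (t3 b) _ (ho.inter isOpen_ne) ⟨a, c⟩
    exact ⟨j, e, d⟩
  · rintro ⟨q, a, b⟩ hc
    have hP : Preperfect (range q) := by
      refine preperfect_iff_nhds.2 ?_
      rintro _ ⟨i, rfl⟩ U hU
      obtain ⟨_, ⟨z, n, rfl⟩, e1, e2⟩ :=
        (PiNat.isTopologicalBasis_cylinders fun _ => ℕ).mem_nhds_iff.1 hU
      obtain ⟨j, c, d⟩ := b i n
      exact ⟨q j, ⟨e2 (PiNat.mem_cylinder_iff_eq.1 e1 ▸ d), j, rfl⟩, c⟩
    let := upgradeIsCompletelyMetrizable (ℕ → ℕ)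
    obtain ⟨f, f1, -, f2⟩ := hP.perfect_closure.exists_nat_bool_injection (range_nonempty q).closure
    have := (hc.mono (f1.trans (closure_minimal (range_subset_iff.2 a) hS))).to_subtype
    have := (mk_range_eq f f2).symm.trans_le mk_le_aleph0
    simp only [mk_pi, mk_fintype, Fintype.card_bool, prod_const, mk_nat, lift_id, Nat.cast_ofNat,
      two_power_aleph0] at this
    exact this.not_gt aleph0_lt_continuum

theorem card_eq {S S' : Set (ℕ → ℕ)} (hS : IsClosed S) (hS' : IsClosed S')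
    (h1 : S.Countable ↔ S'.Countable) (h2 : S.encard = S'.encard) : #S = #S' := by
  have key : ∀ S : Set (ℕ → ℕ), IsClosed S → ¬ S.Countable → #S = 𝔠 := by
    intro S hS h
    obtain ⟨f, f1, -, f2⟩ := hS.exists_nat_bool_injection_of_not_countable h
    refine le_antisymm ((mk_set_le S).trans_eq (by simp)) ?_
    simpa using (mk_range_eq f f2).symm.trans_le (mk_le_mk_of_subset f1)
  by_cases h : S.Countable
  · exact toENat_injOn (le_aleph0_iff_set_countable.2 h) (le_aleph0_iff_set_countable.2 (h1.1 h)) h2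
  · rw [key S hS h, key S' hS' (mt h1.2 h)]

theorem core (p : Bool → ℕ → ℕ → ℕ) : ∃ ω : ℕ × ℕ → Bool,
    #(Th fun n a => p (ω (n, a)) n a) = #(Th fun n a => p (!ω (n, a)) n a) := by
  set X : (ℕ × ℕ → Bool) → Set (ℕ → ℕ) := fun ω => Th fun n a => p (ω (n, a)) n a with hX
  have an : ∀ R : (ℕ × ℕ → Bool) → (ℕ → ℕ → ℕ) → Prop,
      Measurable (fun z : (ℕ × ℕ → Bool) × (ℕ → ℕ → ℕ) => R z.1 z.2) →
      BaireMeasurableSet {ω | ∃ q, R ω q} := by
    intro R hR
    convert analytic_bp ((measurableSet_setOfPred.2 hR).analyticSet_image measurable_fst) using 1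
    ext ω
    simp
  have m1 : ∀ i, Measurable fun z : (ℕ × ℕ → Bool) × (ℕ → ℕ → ℕ) => z.2 i ∈ X z.1 := fun i =>
    .forall fun n => .forall fun a => .imp (Measurable.eq (by fun_prop) (by fun_prop))
      (Measurable.eq (by fun_prop) ((measurable_of_countable fun b => p b n a).comp (by fun_prop)))
  have m2 : ∀ i j, Measurable fun z : (ℕ × ℕ → Bool) × (ℕ → ℕ → ℕ) => z.2 i ≠ z.2 j := fun i j =>
    (Measurable.eq (by fun_prop) (by fun_prop)).not
  have b1 : BaireMeasurableSet {ω | ¬ (X ω).Countable} := by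
    simp only [hX, unc_iff (Th_closed _)]
    exact an _ (.and (.forall m1) (.forall fun i => .forall fun k => .exists fun j => .and (m2 j i)
      (.forall fun n => .imp measurable_const (Measurable.eq (by fun_prop) (by fun_prop)))))
  have b2 : ∀ k : ℕ, BaireMeasurableSet {ω | k ≤ (X ω).encard} := by
    intro k
    have := an (fun ω q => (∀ i < k, q i ∈ X ω) ∧ ∀ i < k, ∀ j < k, i ≠ j → q i ≠ q j)
      (.and (.forall fun i => .imp measurable_const (m1 i)) (.forall fun i => .imp measurable_const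
        (.forall fun j => .imp measurable_const (.imp measurable_const (m2 i j)))))
    convert this using 3 with ω
    constructor
    · intro h
      obtain ⟨t, t1, t2⟩ := exists_subset_encard_eq h
      have := (finite_of_encard_eq_coe t2).fintype
      have e : Fintype.card t = k := by
        rw [← ENat.natCast_inj, ← t2, encard_eq_coe_toFinset_card, toFinset_card]
      set g := (Fintype.equivFinOfCardEq e).symm
      refine ⟨fun i => if h : i < k then g ⟨i, h⟩ else 0, fun i hi => ?_, fun i hi j hj c => ?_⟩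
      · simp only [dif_pos hi]; exact t1 (g _).2
      · simp only [dif_pos hi, dif_pos hj]
        exact fun d => c (congrArg Fin.val (g.injective (Subtype.ext d)))
    · rintro ⟨q, a, b⟩
      have := encard_le_encard_of_injOn (s := Iio k) (f := q) a
        fun i hi j hj c => by_contra fun d => b i hi j hj d c
      rwa [← Finset.coe_range, encard_coe_eq_coe_finsetCard, Finset.card_range] at this
  set c : (ℕ × ℕ → Bool) → Prop × ℕ∞ := fun ω => ((X ω).Countable, (X ω).encard) with hc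
  have b3 : ∀ t, BaireMeasurableSet (c ⁻¹' {t}) := by
    rintro ⟨q, e⟩
    have : c ⁻¹' {(q, e)} = {ω | (X ω).Countable ↔ q} ∩
        ⋂ k : ℕ, {ω | k ≤ (X ω).encard ↔ k ≤ e} := by
      ext ω
      simp only [hc, mem_preimage, mem_singleton_iff, Prod.mk.injEq, eq_iff_iff, mem_inter_iff,
        mem_ofPred_eq, mem_iInter]
      exact and_congr_right fun _ => ⟨fun h k => by rw [h], fun h => le_antisymm
        (ENat.forall_natCast_le_iff_le.1 fun k => (h k).1)
        (ENat.forall_natCast_le_iff_le.1 fun k => (h k).2)⟩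
    rw [this]
    refine .inter ?_ (.iInter fun k => ?_)
    · by_cases h : q
      · simpa [h, compl_def] using b1.compl
      · simpa [h] using b1
    · by_cases h : k ≤ e
      · simpa [h] using b2 k
      · simpa [h, compl_def] using (b2 k).compl
  obtain ⟨t, ht⟩ : ∃ t, ¬ IsMeagre (c ⁻¹' {t}) := by
    by_contra! h
    refine not_isMeagre_of_isOpen isOpen_univ univ_nonempty ((isMeagre_iUnion h).mono ?_)
    exact fun ω _ => mem_iUnion.2 ⟨_, rfl⟩
  obtain ⟨U, hU, e⟩ := (b3 t).residualEq_isOpen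
  obtain ⟨ω₀, h0⟩ : U.Nonempty := by
    by_contra! h
    refine ht ?_
    filter_upwards [e] with x a b
    exact h.subset (a.mp b)
  obtain ⟨I, u, hu, hI⟩ := isOpen_pi_iff.1 hU ω₀ h0
  set φ : (ℕ × ℕ → Bool) → ℕ × ℕ → Bool := fun ω i => if i ∈ I then ω i else !ω i with hφ
  have φ1 : Continuous φ := continuous_pi fun i => by
    simp only [hφ]
    split_ifs
    exacts [continuous_apply i, (continuous_of_discreteTopology (f := not)).comp (continuous_apply i)]
  have φ2 : Function.Involutive φ := fun ω => funext fun i => by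
    simp only [hφ]
    split_ifs <;> simp
  have φ3 : IsOpenMap φ := (⟨φ2.toPerm, φ1, φ1⟩ : _ ≃ₜ _).isOpenMap
  obtain ⟨ω, a, b, d⟩ := (dense_of_mem_residual (Filter.inter_mem e
    (tendsto_residual_of_isOpenMap φ1 φ3 e))).inter_open_nonempty _
    (isOpen_set_pi I.finite_toSet fun i hi => (hu i hi).1) ⟨ω₀, fun i hi => (hu i hi).2⟩
  have h1 : c ω = c (φ ω) := (b.mpr (hI a)).trans
    (d.mpr (hI fun i hi => by simpa [hφ, Finset.mem_coe.1 hi] using a i hi)).symm
  refine ⟨ω, (card_eq (Th_closed _) (Th_closed _) (congrArg Prod.fst h1).to_iff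
    (congrArg Prod.snd h1)).trans ?_⟩
  have h2 : ∀ n, I.sup Prod.fst + 1 ≤ n → (fun a => p (φ ω (n, a)) n a) =
      fun a => p (!ω (n, a)) n a := fun n hn => funext fun a => by
    have : (n, a) ∉ I := fun h => by have := Finset.le_sup (f := Prod.fst) h; omega
    simp [hφ, this]
  exact le_antisymm (Th_le _ _ _ h2) (Th_le _ _ _ fun n hn => (h2 n hn).symm)

theorem result (E : ℕ → Type) (s r : ∀ n, E n → ℕ)
    (hr : ∀ n v, {e | r n e = v}.Finite ∧ {e | r n e = v}.Nonempty) :
    ∃ ord : ∀ n v, LinearOrder {e : E n // r n e = v},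
      #{x : ∀ n, E n | (∀ n, r n (x n) = s (n + 1) (x (n + 1))) ∧
        ∀ n e (h : r n e = r n (x n)), (ord n (r n (x n))).le ⟨e, h⟩ ⟨x n, rfl⟩} =
      #{x : ∀ n, E n | (∀ n, r n (x n) = s (n + 1) (x (n + 1))) ∧
        ∀ n e (h : r n e = r n (x n)), (ord n (r n (x n))).le ⟨x n, rfl⟩ ⟨e, h⟩} := by
  have ex : ∀ n v, ∃ (L : LinearOrder {e : E n // r n e = v}) (M : Bool → {e : E n // r n e = v}),
      (∀ e, L.le e (M true)) ∧ ∀ e, L.le (M false) e := by
    intro n v
    obtain ⟨L, -⟩ := exists_wellFoundedLT {e : E n // r n e = v}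
    have : Finite {e : E n // r n e = v} := (hr n v).1
    have : Nonempty {e : E n // r n e = v} := (hr n v).2.to_subtype
    obtain ⟨a, ha⟩ := Finite.exists_max (id : {e : E n // r n e = v} → _)
    obtain ⟨b, hb⟩ := Finite.exists_min (id : {e : E n // r n e = v} → _)
    exact ⟨L, fun t => cond t a b, ha, hb⟩
  choose L M h1 h2 using ex
  have key : ∀ ω : ℕ × ℕ → Bool, #{x : ∀ n, E n | (∀ n, r n (x n) = s (n + 1) (x (n + 1))) ∧
      ∀ n, x n = M n (r n (x n)) (ω (n, r n (x n)))} =
      #(Th fun n a => s n (M n a (ω (n, a)))) := by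
    refine fun ω => mk_congr ⟨fun x => ⟨fun n => s n (x.1 n), ?_⟩,
      fun v => ⟨fun n => M n (v.1 (n + 1)) (ω (n, v.1 (n + 1))), fun n => ?_, fun n => ?_⟩,
      fun x => Subtype.ext (funext fun n => ?_), fun v => Subtype.ext (funext fun n => ?_)⟩
    · rintro n _ rfl
      beta_reduce
      rw [← x.2.1 n, ← x.2.2 n]
    · exact (M _ _ _).2.trans (v.2 (n + 1) _ rfl)
    · beta_reduce
      rw [(M _ _ _).2]
    · simp only
      rw [← x.2.1 n, ← x.2.2 n]
    · exact (v.2 n _ rfl).symm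
  obtain ⟨ω, hω⟩ := core fun b n a => s n (M n a b)
  refine ⟨fun n v => if ω (n, v) then L n v else @OrderDual.instLinearOrder _ (L n v), ?_⟩
  have e1 : ∀ n v (e : {e : E n // r n e = v}), (∀ e', (L n v).le e' e) ↔ e = M n v true :=
    fun n v e => ⟨fun h => (L n v).le_antisymm _ _ (h1 n v e) (h _), fun h => h ▸ h1 n v⟩
  have e2 : ∀ n v (e : {e : E n // r n e = v}), (∀ e', (L n v).le e e') ↔ e = M n v false :=
    fun n v e => ⟨fun h => (L n v).le_antisymm _ _ (h _) (h2 n v e), fun h => h ▸ h2 n v⟩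
  refine Eq.trans ?_ (((key ω).trans hω).trans ((key fun i => !ω i).symm.trans ?_)) <;>
    refine mk_congr (Equiv.setCongr (Set.ext fun x => and_congr_right fun _ =>
      forall_congr' fun n => ?_)) <;> beta_reduce
  · cases h : ω (n, r n (x n))
    · exact (Subtype.forall.symm.trans (e2 n _ ⟨x n, rfl⟩)).trans Subtype.ext_iff
    · exact (Subtype.forall.symm.trans (e1 n _ ⟨x n, rfl⟩)).trans Subtype.ext_iff
  · cases h : ω (n, r n (x n))
    · exact ((Subtype.forall.symm.trans (e1 n _ ⟨x n, rfl⟩)).trans Subtype.ext_iff).symm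
    · exact ((Subtype.forall.symm.trans (e2 n _ ⟨x n, rfl⟩)).trans Subtype.ext_iff).symm

end Pool.Agent.Results.MP_f8f5a4_an.EqualCard
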